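import Pool.Agent.Helper55.RT.Spec6
import Pool.Agent.Helper84.Thin.KIN

/-!
# THIN-4, part KMD (helper95): the characters of order `p` which are not ramified outside of the roots of a
polynomial `s` span a space whose dimension is at most the degree of `s`.
-/

set_option autoImplicit false
set_option linter.all false

open Polynomial IsDedekindDomain NumberField
open scoped Classical

namespace Pool.Agent.Helper95.Thin.KMD

open Pool.Agent.TH115.GD Pool.Agent.Helper55.TT Pool.Agent.R939.EI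
open Pool.Agent.Helper55.RG hiding em_inj VanishL VanishExt
open Pool.Agent.Helper55.RL
open Pool.Agent.Helper55.RT

/-- the Kummer generator of a character -/
theorem kummer {p : ℕ} [hpf : Fact p.Prime] {k' F : Type} [Field k'] [CharZero k'] [Field F] [Algebra k'[X] F]
    [IsFractionRing k'[X] F] {z₀ : k'} (hz₀ : IsPrimitiveRoot z₀ p)
    (χ : (Sep F ≃ₐ[F] Sep F) → ZMod p) (hχc : Continuous χ)
    (hχm : ∀ σ τ, χ (σ * τ) = χ σ + χ τ) :
    ∃ (P : k'[X]) (y : Sep F), P ≠ 0 ∧ y ≠ 0 ∧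
      y ^ p = algebraMap F (Sep F) (algebraMap k'[X] F P) ∧
      ∀ σ : Sep F ≃ₐ[F] Sep F,
        σ y = (algebraMap F (Sep F) (algebraMap k'[X] F (C z₀))) ^ (χ σ).val * y := by
  have hp : p.Prime := hpf.out
  haveI : CharZero F := charZero_of_injective_algebraMap (IsFractionRing.injective k'[X] F)
  have hP : P_KMP := Pool.Agent.Helper51.RL.KMP.main
  set z : Sep F := algebraMap F (Sep F) (algebraMap k'[X] F (C z₀)) with hz
  have hinj : Function.Injective (algebraMap k'[X] F) := IsFractionRing.injective k'[X] F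
  have hzp : IsPrimitiveRoot z p :=
    ((hz₀.map_of_injective (f := (C : k' →+* k'[X])) C_injective).map_of_injective
      hinj).map_of_injective (algebraMap F (Sep F)).injective
  have hzσ : ∀ (σ : Sep F ≃ₐ[F] Sep F) (n : ℕ), σ (z ^ n) = z ^ n := by
    intro σ n
    rw [map_pow, hz, σ.commutes]
  let χ' : (Sep F ≃ₐ[F] Sep F) → Sep F := fun σ => z ^ (χ σ).val
  have hχ'm : ∀ σ σ', χ' (σ * σ') = χ' σ * χ' σ' := by
    intro σ σ'
    simp only [χ']
    rw [hχm, ZMod.val_add, ← pow_add, ← pow_eq_pow_mod _ hzp.pow_eq_one]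
  have hχ1 : χ 1 = 0 := by
    have := hχm 1 1
    rw [mul_one] at this
    simpa using this
  -- continuity
  obtain ⟨S, hS, hSχ⟩ : ∃ S : Set (Sep F), S.Finite ∧
      ∀ u : Sep F ≃ₐ[F] Sep F, (∀ x ∈ S, u x = x) → χ' u = 1 := by
    have hopen : IsOpen (χ ⁻¹' {0}) := (isOpen_discrete _).preimage hχc
    have hmem : χ ⁻¹' {0} ∈ nhds (1 : Sep F ≃ₐ[F] Sep F) := hopen.mem_nhds (by simpa using hχ1)
    rw [krullTopology_mem_nhds_one_iff] at hmem
    obtain ⟨E, hE, hEs⟩ := hmem
    haveI := hE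
    let b := Module.finBasis F E
    refine ⟨Set.range fun i => ((b i : E) : Sep F), Set.finite_range _, fun u hu => ?_⟩
    have h1 : u ∈ E.fixingSubgroup := by
      rw [IntermediateField.mem_fixingSubgroup_iff]
      intro x hx
      have h2 := b.sum_repr ⟨x, hx⟩
      have h3 := congrArg (fun t : E => (t : Sep F)) h2
      simp only at h3
      rw [← h3]
      simp only [IntermediateField.coe_sum, IntermediateField.coe_smul, map_sum]
      refine Finset.sum_congr rfl fun i _ => ?_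
      rw [map_smul, hu _ ⟨i, rfl⟩]
    have h2 : χ u = 0 := hEs h1
    simp only [χ']
    rw [h2, ZMod.val_zero, pow_zero]
  obtain ⟨y, y0, hy, hχy⟩ := hP p F (Sep F) ⊥ χ' (fun ζ h => by
      haveI : NeZero p := ⟨hp.ne_zero⟩
      obtain ⟨i, _, hi⟩ := hzp.eq_pow_of_pow_eq_one h
      refine IntermediateField.mem_bot.2 ⟨algebraMap k'[X] F (C z₀) ^ i, ?_⟩
      rw [map_pow, ← hz]; exact hi) (fun σ => by
      simp only [χ']
      rw [← pow_mul, mul_comm, pow_mul, hzp.pow_eq_one, one_pow]) (fun σ _ σ' _ => hχ'm σ σ')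
      S hS (fun u _ h => hSχ u h)
  obtain ⟨e, he⟩ := IntermediateField.mem_bot.1 hy
  have hχy' : ∀ σ : Sep F ≃ₐ[F] Sep F, σ y = χ' σ * y := by
    intro σ
    apply hχy
    rw [IntermediateField.fixingSubgroup_bot]
    trivial
  -- a polynomial
  obtain ⟨f, d, hd, hfd⟩ := IsFractionRing.div_surjective (A := k'[X]) e
  have hd0 : d ≠ 0 := nonZeroDivisors.ne_zero hd
  have hdF : algebraMap k'[X] F d ≠ 0 := by simpa using hd0
  have hf0 : f ≠ 0 := by
    rintro rfl
    rw [map_zero, zero_div] at hfd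
    rw [← hfd, map_zero] at he
    exact pow_ne_zero p y0 he.symm
  have hdS : algebraMap F (Sep F) (algebraMap k'[X] F d) ≠ 0 := (_root_.map_ne_zero _).2 hdF
  refine ⟨f * d ^ (p - 1), y * algebraMap F (Sep F) (algebraMap k'[X] F d),
    mul_ne_zero hf0 (pow_ne_zero _ hd0), mul_ne_zero y0 hdS, ?_, ?_⟩
  · rw [mul_pow, ← he, ← map_pow, ← map_mul]
    congr 1
    rw [map_mul, map_pow, ← hfd]
    have h2 : algebraMap k'[X] F d ^ p = algebraMap k'[X] F d ^ (p - 1) * algebraMap k'[X] F d := by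
      rw [← pow_succ, Nat.sub_add_cancel hp.one_le]
    rw [h2]
    field_simp
  · intro σ
    rw [map_mul, hχy', σ.commutes, mul_assoc]

theorem rm_prod {k' : Type} [Field k'] {N : ℕ} (P : Fin N → k'[X]) (hP : ∀ i, P i ≠ 0)
    (n : Fin N → ℕ) (a : k') (T : Finset (Fin N)) :
    rootMultiplicity a (∏ i ∈ T, P i ^ n i) = ∑ i ∈ T, n i * rootMultiplicity a (P i) := by
  induction T using Finset.induction_on with
  | empty => simp
  | insert i T hi ih =>
    have h0 : (P i ^ n i * ∏ j ∈ T, P j ^ n j) ≠ 0 :=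
      mul_ne_zero (pow_ne_zero _ (hP i)) (Finset.prod_ne_zero_iff.2 fun j _ => pow_ne_zero _ (hP j))
    rw [Finset.prod_insert hi, Finset.sum_insert hi, rootMultiplicity_mul h0, ih]
    congr 1
    rw [← count_roots, roots_pow, Multiset.count_nsmul, count_roots]

theorem main : Q_KMD := by
  intro p hpf k' F _ _ _ _ _ _ s hs N hN χ hχc hχm hun
  have hp : p.Prime := hpf.out
  haveI : CharZero F := charZero_of_injective_algebraMap (IsFractionRing.injective k'[X] F)
  haveI : NeZero ((p : ℕ) : k') := ⟨by exact_mod_cast hp.ne_zero⟩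
  haveI : NeZero p := ⟨hp.ne_zero⟩
  obtain ⟨z₀, hz₀⟩ := HasEnoughRootsOfUnity.exists_primitiveRoot k' p
  set z : Sep F := algebraMap F (Sep F) (algebraMap k'[X] F (C z₀)) with hz
  have hinj : Function.Injective (algebraMap k'[X] F) := IsFractionRing.injective k'[X] F
  have hzp : IsPrimitiveRoot z p :=
    ((hz₀.map_of_injective (f := (C : k' →+* k'[X])) C_injective).map_of_injective
      hinj).map_of_injective (algebraMap F (Sep F)).injective
  choose P y hP0 hy0 hyp hyχ using fun i => kummer hz₀ (χ i) (hχc i) (hχm i)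
  -- the exponents outside of the roots of `s`
  have hdiv : ∀ i, ∀ a : k', ¬ s.IsRoot a → p ∣ rootMultiplicity a (P i) := by
    intro i a ha
    let ι' : Sep F →ₐ[F] Sep (Comp k'[X] F (pl a)) := IsSepClosed.lift
    refine Pool.Agent.Helper84.Thin.KIN.mult_div' (hP0 i) hp.ne_zero (hyp i) a ι' fun σ hσ => ?_
    have h2 : χ i σ = 0 := by
      refine hun i (pl a) ?_ ι' σ hσ
      show ¬ s ∈ Ideal.span {X - C a}
      rw [Ideal.mem_span_singleton, dvd_iff_isRoot]
      exact ha
    rw [hyχ, h2, ZMod.val_zero, pow_zero, one_mul]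
  -- the kernel vector
  let M : Matrix s.roots.toFinset (Fin N) (ZMod p) :=
    Matrix.of fun a i => (rootMultiplicity (a : k') (P i) : ZMod p)
  have hker : LinearMap.ker M.mulVecLin ≠ ⊥ := by
    apply LinearMap.ker_ne_bot_of_finrank_lt
    rw [Module.finrank_fintype_fun_eq_card, Module.finrank_fintype_fun_eq_card, Fintype.card_fin,
      Fintype.card_coe]
    calc s.roots.toFinset.card ≤ Multiset.card s.roots := Multiset.toFinset_card_le _
      _ ≤ s.natDegree := card_roots' s
      _ < N := hN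
  obtain ⟨x, hx, hx0⟩ := Submodule.exists_mem_ne_zero_of_ne_bot hker
  refine ⟨x, hx0, ?_⟩
  have hxa : ∀ a : k', s.IsRoot a → ∑ i, (rootMultiplicity a (P i) : ZMod p) * x i = 0 := by
    intro a ha
    have h1 : a ∈ s.roots.toFinset := by
      rw [Multiset.mem_toFinset, mem_roots hs]
      exact ha
    have h2 := congrFun (LinearMap.mem_ker.1 hx) ⟨a, h1⟩
    simpa [M, Matrix.mulVec, dotProduct] using h2
  set R : k'[X] := ∏ i, P i ^ (x i).val with hR
  have hR0 : R ≠ 0 := Finset.prod_ne_zero_iff.2 fun i _ => pow_ne_zero _ (hP0 i)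
  have hRm : ∀ a : k', p ∣ rootMultiplicity a R := by
    intro a
    rw [hR, rm_prod P hP0]
    by_cases ha : s.IsRoot a
    · rw [← CharP.cast_eq_zero_iff (ZMod p) p]
      rw [← hxa a ha, Nat.cast_sum]
      refine Finset.sum_congr rfl fun i _ => ?_
      rw [Nat.cast_mul, ZMod.natCast_zmod_val, mul_comm]
    · exact Finset.dvd_sum fun i _ => Dvd.dvd.mul_left (hdiv i a ha) _
  obtain ⟨Q, hQ0, hRQ⟩ := Pool.Agent.Helper84.Thin.KIN.factor hp.pos R hR0
  have hRQ' : R = Q ^ p := by
    rw [Finset.prod_eq_one, one_mul] at hRQ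
    · exact hRQ
    · intro a _
      rw [Nat.mod_eq_zero_of_dvd (hRm a), pow_zero]
  have hQF : algebraMap k'[X] F Q ≠ 0 := by simpa using hQ0
  have hQS : algebraMap F (Sep F) (algebraMap k'[X] F Q) ≠ 0 := (_root_.map_ne_zero _).2 hQF
  set Y : Sep F := ∏ i, y i ^ (x i).val with hY
  have hY0 : Y ≠ 0 := Finset.prod_ne_zero_iff.2 fun i _ => pow_ne_zero _ (hy0 i)
  have hYp : Y ^ p = algebraMap F (Sep F) (algebraMap k'[X] F Q) ^ p := by
    rw [← map_pow, ← map_pow, ← hRQ', hY, hR, ← Finset.prod_pow, map_prod, map_prod]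
    refine Finset.prod_congr rfl fun i _ => ?_
    rw [← pow_mul, mul_comm, pow_mul, hyp, map_pow, map_pow]
  obtain ⟨j, _, hj⟩ : ∃ j < p, z ^ j = Y / algebraMap F (Sep F) (algebraMap k'[X] F Q) :=
    hzp.eq_pow_of_pow_eq_one (by
      rw [div_pow, hYp, div_self]
      exact pow_ne_zero _ hQS)
  have hYf : ∀ σ : Sep F ≃ₐ[F] Sep F, σ Y = Y := by
    intro σ
    have h1 : Y = z ^ j * algebraMap F (Sep F) (algebraMap k'[X] F Q) := by
      rw [hj, div_mul_cancel₀ _ hQS]
    rw [h1, map_mul, map_pow, hz, σ.commutes, σ.commutes]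
  intro σ
  have h1 : σ Y = z ^ (∑ i, (χ i σ).val * (x i).val) * Y := by
    rw [hY, map_prod, ← Finset.prod_pow_eq_pow_sum, ← Finset.prod_mul_distrib]
    refine Finset.prod_congr rfl fun i _ => ?_
    rw [map_pow, hyχ, mul_pow, ← pow_mul]
  rw [hYf] at h1
  have h2 : z ^ (∑ i, (χ i σ).val * (x i).val) = 1 := by
    apply mul_right_cancel₀ hY0
    rw [← h1, one_mul]
  have h3 := hzp.dvd_of_pow_eq_one _ h2
  rw [← CharP.cast_eq_zero_iff (ZMod p) p] at h3
  rw [← h3, Nat.cast_sum]
  refine Finset.sum_congr rfl fun i _ => ?_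
  rw [Nat.cast_mul, ZMod.natCast_zmod_val, ZMod.natCast_zmod_val, mul_comm]

end Pool.Agent.Helper95.Thin.KMD
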